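import Pool.Agent.Y89.TS.Stm2
import Pool.Agent.Y89.KS.Gen

/-!
# Project TS: change of basis in the Tannaka-Schrijver theorem (BASE)
-/

set_option autoImplicit false
set_option linter.unusedSectionVars false

open Matrix Finset

namespace Pool.Agent.Y761.TS

open Pool.Agent.Y89.TS Pool.Agent.Y89.KS

section basic

variable {ι : Type} [Fintype ι]

lemma act_act (g h : Matrix ι ι ℂ) {k : ℕ} (f : (Fin k → ι) → ℂ) :
    act g (act h f) = act (g * h) f := by
  classical
  funext I
  unfold act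
  simp only [Finset.mul_sum]
  rw [Finset.sum_comm]
  refine Finset.sum_congr rfl fun K _ => ?_
  simp only [← mul_assoc]
  rw [← Finset.sum_mul]
  congr 1
  simp only [Matrix.mul_apply]
  rw [Finset.prod_univ_sum, Fintype.piFinset_univ]
  refine Finset.sum_congr rfl fun J _ => ?_
  rw [Finset.prod_mul_distrib]

lemma act_one [DecidableEq ι] {k : ℕ} (f : (Fin k → ι) → ℂ) :
    act (1 : Matrix ι ι ℂ) f = f := by
  funext I
  unfold act
  rw [Finset.sum_eq_single I]
  · simp
  · intro J _ hJ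
    obtain ⟨s, hs⟩ := Function.ne_iff.1 (Ne.symm hJ)
    have h1 : ∏ s, (1 : Matrix ι ι ℂ) (I s) (J s) = 0 :=
      Finset.prod_eq_zero (Finset.mem_univ s) (Matrix.one_apply_ne hs)
    rw [h1, zero_mul]
  · intro h
    exact absurd (Finset.mem_univ I) h

/-- the action as a linear map -/
noncomputable def actL (g : Matrix ι ι ℂ) (k : ℕ) :
    ((Fin k → ι) → ℂ) →ₗ[ℂ] ((Fin k → ι) → ℂ) where
  toFun := act g
  map_add' f f' := by
    funext I
    unfold act
    simp only [Pi.add_apply, mul_add, Finset.sum_add_distrib]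
  map_smul' c f := by
    funext I
    unfold act
    simp only [Pi.smul_apply, smul_eq_mul, RingHom.id_apply, Finset.mul_sum]
    exact Finset.sum_congr rfl fun J _ => by ring

lemma sum_append (k b : ℕ) (F : (Fin (k + b) → ι) → ℂ) :
    ∑ J, F J = ∑ K : Fin k → ι, ∑ L : Fin b → ι, F (Fin.append K L) := by
  rw [← Fintype.sum_prod_type', ← (Fin.appendEquiv k b).sum_comp]
  rfl

lemma sum_cons (b : ℕ) (F : (Fin (b + 1) → ι) → ℂ) :
    ∑ J, F J = ∑ p : ι, ∑ L : Fin b → ι, F (Fin.cons p L) := by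
  rw [← Fintype.sum_prod_type', ← (Fin.consEquiv fun _ => ι).sum_comp]
  rfl

lemma act_append (g : Matrix ι ι ℂ) {k b : ℕ} (F : (Fin (k + b) → ι) → ℂ) (I : Fin k → ι)
    (L : Fin b → ι) : act g F (Fin.append I L) =
      ∑ K : Fin k → ι, ∑ M : Fin b → ι, (∏ s, g (I s) (K s)) * (∏ s, g (L s) (M s)) *
        F (Fin.append K M) := by
  unfold act
  rw [sum_append]
  refine Finset.sum_congr rfl fun K _ => Finset.sum_congr rfl fun M _ => ?_
  rw [Fin.prod_univ_add]
  simp only [Fin.append_left, Fin.append_right]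

lemma act_mul (g : Matrix ι ι ℂ) {k l : ℕ} (f : (Fin k → ι) → ℂ) (f' : (Fin l → ι) → ℂ) :
    act g (fun J : Fin (k + l) → ι =>
      f (fun i => J (Fin.castAdd l i)) * f' (fun i => J (Fin.natAdd k i))) =
    fun J : Fin (k + l) → ι =>
      act g f (fun i => J (Fin.castAdd l i)) * act g f' (fun i => J (Fin.natAdd k i)) := by
  funext J
  have hJ : J = Fin.append (fun i => J (Fin.castAdd l i)) (fun i => J (Fin.natAdd k i)) :=
    (Fin.append_castAdd_natAdd).symm
  conv_lhs => rw [hJ]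
  rw [act_append]
  simp only [Fin.append_left, Fin.append_right]
  unfold act
  rw [Finset.sum_mul_sum]
  refine Finset.sum_congr rfl fun K _ => Finset.sum_congr rfl fun M _ => ?_
  ring

lemma act_perm (g : Matrix ι ι ℂ) {k : ℕ} (σ : Equiv.Perm (Fin k)) (f : (Fin k → ι) → ℂ) :
    act g (fun J : Fin k → ι => f (fun i => J (σ i))) =
      fun J : Fin k → ι => act g f (fun i => J (σ i)) := by
  funext I
  unfold act
  rw [← (Equiv.arrowCongr σ (Equiv.refl ι)).sum_comp]
  refine Finset.sum_congr rfl fun J _ => ?_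
  have h1 : ∀ s, (Equiv.arrowCongr σ (Equiv.refl ι)) J s = J (σ.symm s) := fun s => rfl
  simp only [h1, Equiv.symm_apply_apply]
  congr 1
  rw [← Equiv.prod_comp σ]
  simp only [Equiv.symm_apply_apply]

end basic

section con

variable {ι : Type} [Fintype ι]

/-- splitting off the first slots -/
def spl (S : Type) (b : ℕ) :
    S ⊕ (Fin (b + 1) ⊕ Fin (b + 1)) ≃ (S ⊕ (Fin b ⊕ Fin b)) ⊕ Bool where
  toFun := Sum.elim (fun s => Sum.inl (Sum.inl s))
    (Sum.elim (Fin.cases (Sum.inr false) (fun i => Sum.inl (Sum.inr (Sum.inl i))))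
      (Fin.cases (Sum.inr true) (fun i => Sum.inl (Sum.inr (Sum.inr i)))))
  invFun := Sum.elim (Sum.elim Sum.inl
    (Sum.elim (fun i => Sum.inr (Sum.inl i.succ)) (fun i => Sum.inr (Sum.inr i.succ))))
    (fun c => cond c (Sum.inr (Sum.inr 0)) (Sum.inr (Sum.inl 0)))
  left_inv := by
    rintro (s | i | i)
    · rfl
    · refine Fin.cases ?_ (fun i => ?_) i <;> rfl
    · refine Fin.cases ?_ (fun i => ?_) i <;> rfl
  right_inv := by
    rintro ((s | i | i) | c)
    · rfl
    · rfl
    · rfl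
    · cases c <;> rfl

lemma con_many {R : Matrix ι ι ℂ} {M : ∀ S : Type, Submodule ℂ ((S → ι) → ℂ)}
    (hM : GSys R M) :
    ∀ (b : ℕ) (S : Type) (F : (S ⊕ (Fin b ⊕ Fin b) → ι) → ℂ), F ∈ M (S ⊕ (Fin b ⊕ Fin b)) →
      (fun J : S → ι => ∑ P : Fin b → ι, ∑ Q : Fin b → ι, (∏ s, R (P s) (Q s)) *
        F (Sum.elim J (Sum.elim P Q))) ∈ M S := by
  intro b
  induction b with
  | zero =>
    intro S F hF
    have h1 := hM.reidx _ _ (Equiv.sumEmpty S (Fin 0 ⊕ Fin 0)) F hF
    have h2 : (fun J : S → ι => ∑ P : Fin 0 → ι, ∑ Q : Fin 0 → ι, (∏ s, R (P s) (Q s)) *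
        F (Sum.elim J (Sum.elim P Q))) =
        (fun J : S → ι => F (fun s => J (Equiv.sumEmpty S (Fin 0 ⊕ Fin 0) s))) := by
      funext J
      rw [Fintype.sum_unique, Fintype.sum_unique, Fin.prod_univ_zero, one_mul]
      congr 1
      funext s
      rcases s with s | s
      · rfl
      · exact isEmptyElim s
    rw [h2]
    exact h1
  | succ b ih =>
    intro S F hF
    have h1 := hM.reidx _ _ (spl S b) F hF
    have h2 := ih S _ (hM.con _ _ h1)
    have h3 : (fun J : S → ι => ∑ P : Fin (b + 1) → ι, ∑ Q : Fin (b + 1) → ι,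
        (∏ s, R (P s) (Q s)) * F (Sum.elim J (Sum.elim P Q))) =
        (fun J : S → ι => ∑ P : Fin b → ι, ∑ Q : Fin b → ι, (∏ s, R (P s) (Q s)) *
          ∑ p, ∑ q, R p q * F (fun s => (Sum.elim (Sum.elim J (Sum.elim P Q))
            (fun b => cond b q p) : (S ⊕ (Fin b ⊕ Fin b)) ⊕ Bool → ι) (spl S b s))) := by
      funext J
      rw [sum_cons]
      simp only [sum_cons b (fun Q => _)]
      simp only [Fin.prod_univ_succ, Fin.cons_zero, Fin.cons_succ]
      have h4 : ∀ (p q : ι) (P Q : Fin b → ι),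
          (fun s => (Sum.elim (Sum.elim J (Sum.elim P Q))
            (fun b => cond b q p) : (S ⊕ (Fin b ⊕ Fin b)) ⊕ Bool → ι) (spl S b s)) =
          Sum.elim J (Sum.elim (Fin.cons p P : Fin (b + 1) → ι) (Fin.cons q Q)) := by
        intro p q P Q
        funext s
        rcases s with s | i | i
        · rfl
        · refine Fin.cases ?_ (fun i => ?_) i <;> rfl
        · refine Fin.cases ?_ (fun i => ?_) i <;> rfl
      simp only [h4]
      rw [Finset.sum_comm]
      refine Finset.sum_congr rfl fun P _ => ?_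
      rw [Finset.sum_congr rfl fun p _ => Finset.sum_comm, Finset.sum_comm]
      refine Finset.sum_congr rfl fun Q _ => ?_
      simp only [Finset.mul_sum]
      refine Finset.sum_congr rfl fun p _ => Finset.sum_congr rfl fun q _ => ?_
      ring
    rw [h3]
    exact h2

lemma pair_mem {R : Matrix ι ι ℂ} {A : ∀ k : ℕ, Submodule ℂ ((Fin k → ι) → ℂ)}
    (hA : Sys R A) {k b : ℕ} {f : (Fin (k + b) → ι) → ℂ} {f' : (Fin b → ι) → ℂ}
    (hf : f ∈ A (k + b)) (hf' : f' ∈ A b) :
    (fun I : Fin k → ι => ∑ P : Fin b → ι, ∑ Q : Fin b → ι, (∏ s, R (P s) (Q s)) *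
      (f (Fin.append I Q) * f' P)) ∈ A k := by
  obtain ⟨hM, hi⟩ := gen' ℂ ι R A hA
  have h1 := hM.reidx _ _ (finSumFinEquiv (m := k) (n := b)).symm f ((hi _ _).2 hf)
  have h2 := hM.mul _ _ _ _ h1 ((hi _ _).2 hf')
  have h3 := hM.reidx _ _ ((Equiv.sumAssoc (Fin k) (Fin b) (Fin b)).trans
    (Equiv.sumCongr (Equiv.refl _) (Equiv.sumComm _ _))) _ h2
  have h4 := con_many hM b (Fin k) _ h3
  rw [← hi]
  convert h4 using 1
  funext I
  refine Finset.sum_congr rfl fun P _ => Finset.sum_congr rfl fun Q _ => ?_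
  congr 2
  congr 1
  funext s
  refine Fin.addCases (fun i => ?_) (fun i => ?_) s
  · simp
  · simp

end con

section real

variable {ι : Type} [Fintype ι]

lemma act_conj (S : Matrix ι ι ℝ) {k : ℕ} (f : (Fin k → ι) → ℂ) :
    act (rc S)ᵀ (fun J => starRingEnd ℂ (f J)) = fun J => starRingEnd ℂ (act (rc S)ᵀ f J) := by
  funext I
  unfold act
  rw [map_sum]
  refine Finset.sum_congr rfl fun J _ => ?_
  rw [map_mul, map_prod]
  simp

end real

section pair

variable {ι : Type} [Fintype ι] [DecidableEq ι]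

lemma act_pair (T U : Matrix ι ι ℂ) (h : Tᵀ * Uᵀ = 1) {k b : ℕ} (h₁ : (Fin (k + b) → ι) → ℂ)
    (f' : (Fin b → ι) → ℂ) :
    act Tᵀ (fun I : Fin k → ι => ∑ J : Fin b → ι, f' J * act Uᵀ h₁ (Fin.append I J)) =
      fun I => ∑ L : Fin b → ι, act U f' L * h₁ (Fin.append I L) := by
  have e1 : ∀ I : Fin k → ι, ∑ J : Fin b → ι, f' J * act Uᵀ h₁ (Fin.append I J) =
      act Uᵀ (fun K => ∑ L : Fin b → ι, act U f' L * h₁ (Fin.append K L)) I := by
    intro I
    simp only [act_append]
    unfold act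
    simp only [Finset.mul_sum, Finset.sum_mul]
    rw [Finset.sum_comm]
    refine Finset.sum_congr rfl fun K _ => ?_
    rw [Finset.sum_comm]
    refine Finset.sum_congr rfl fun L _ => Finset.sum_congr rfl fun J _ => ?_
    simp only [Matrix.transpose_apply]
    ring
  have e2 : (fun I : Fin k → ι => ∑ J : Fin b → ι, f' J * act Uᵀ h₁ (Fin.append I J)) =
      act Uᵀ (fun K => ∑ L : Fin b → ι, act U f' L * h₁ (Fin.append K L)) := funext e1
  rw [e2, act_act, h, act_one]

end pair

theorem t_T0R (h : S_T0) : S_T0R := by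
  intro ι _ _ R C S A hA hS hCR hconj hC k f hf
  obtain ⟨T, hT⟩ : ∃ T, T = rc S := ⟨_, rfl⟩
  have hTdet : IsUnit T.det := by
    rw [hT]
    have h1 : (rc S).det = ((S.det : ℝ) : ℂ) := by
      have := RingHom.map_det Complex.ofRealHom S
      exact this.symm
    rw [h1, isUnit_iff_ne_zero]
    exact_mod_cast hS
  obtain ⟨U, hU⟩ : ∃ U, U = T⁻¹ := ⟨_, rfl⟩
  have hTU : T * U = 1 := by rw [hU]; exact Matrix.mul_nonsing_inv T hTdet
  have hUT : U * T = 1 := by rw [hU]; exact Matrix.nonsing_inv_mul T hTdet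
  have hTUt : Tᵀ * Uᵀ = 1 := by rw [← Matrix.transpose_mul, hUT, Matrix.transpose_one]
  have hUTt : Uᵀ * Tᵀ = 1 := by rw [← Matrix.transpose_mul, hTU, Matrix.transpose_one]
  have hTG : rc (Sᵀ * S) = Tᵀ * T := by
    rw [hT]
    ext i j
    simp [Matrix.mul_apply, Matrix.map_apply]
  have hTH : Tᴴ = Tᵀ := by
    rw [hT]
    ext i j
    simp [Matrix.conjTranspose_apply]
  have hUH : Uᴴ = Uᵀ := by
    rw [hU, Matrix.conjTranspose_nonsing_inv, hTH, Matrix.transpose_nonsing_inv]
  have hCR' : U * Uᵀ = C * R := by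
    rw [← hCR, hTG, Matrix.mul_inv_rev, hU, Matrix.transpose_nonsing_inv]
  have hCR2 : U * Uᵀ = Rᵀ * Cᵀ := by
    rw [← Matrix.transpose_mul, ← hCR', Matrix.transpose_mul, Matrix.transpose_transpose]
  have hback : ∀ {l : ℕ} (x : (Fin l → ι) → ℂ), act Tᵀ (act Uᵀ x) = x := by
    intro l x
    rw [act_act, hTUt, act_one]
  have hback' : ∀ {l : ℕ} (x : (Fin l → ι) → ℂ), act Uᵀ (act Tᵀ x) = x := by
    intro l x
    rw [act_act, hUTt, act_one]
  let A' : ∀ k : ℕ, Submodule ℂ ((Fin k → ι) → ℂ) := fun k => (A k).comap (actL Tᵀ k)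
  have hmem : ∀ {k : ℕ} (x : (Fin k → ι) → ℂ), x ∈ A' k ↔ act Tᵀ x ∈ A k := fun x => Iff.rfl
  have hA' : TSys A' := by
    refine ⟨?_, ?_, ?_, ?_, ?_⟩
    · rw [hmem]
      have e : act Tᵀ (fun _ : Fin 0 → ι => (1 : ℂ)) = fun _ => 1 := by
        funext I
        unfold act
        rw [Fintype.sum_unique, Fin.prod_univ_zero, one_mul]
      rw [e]
      exact hA.unit
    · intro k l f g hf hg
      rw [hmem] at hf hg ⊢
      rw [act_mul]
      exact hA.mul k l _ _ hf hg
    · intro k σ f hf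
      rw [hmem] at hf ⊢
      rw [act_perm]
      exact hA.perm k σ _ hf
    · intro k f hf
      rw [hmem] at hf ⊢
      rw [hT] at hf ⊢
      rw [act_conj]
      exact hconj k _ hf
    · intro k b f f' hf hf'
      rw [hmem] at hf hf' ⊢
      have e1 := act_pair T U hTUt (act Tᵀ f) f'
      rw [hback'] at e1
      rw [e1]
      have e2 : act U f' = act Rᵀ (act Cᵀ (act Tᵀ f')) := by
        rw [act_act Rᵀ, ← hCR2, ← act_act, hback']
      have e3 := pair_mem hA hf (hC b _ hf')
      convert e3 using 1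
      funext I
      rw [e2]
      generalize act Cᵀ (act Tᵀ f') = X
      generalize act Tᵀ f = Y
      unfold act
      rw [Finset.sum_comm]
      refine Finset.sum_congr rfl fun L _ => ?_
      rw [Finset.sum_mul]
      refine Finset.sum_congr rfl fun P _ => ?_
      simp only [Matrix.transpose_apply]
      ring
  have key := h ι A' hA' k (act Uᵀ f) (by
    intro g hg hinv
    have hg' : g * gᴴ = 1 := mul_eq_one_comm.1 hg
    have h1 := hf (U * gᵀ * T) (by
      rw [hTG, Matrix.conjTranspose_mul, Matrix.conjTranspose_mul, hTH, hUH]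
      have e : gᵀᴴ * gᵀ = 1 := by
        have := congrArg Matrix.transpose hg'
        rw [Matrix.transpose_mul, Matrix.transpose_one] at this
        exact this
      calc Tᵀ * (gᵀᴴ * Uᵀ) * (Tᵀ * T) * (U * gᵀ * T)
          = Tᵀ * (gᵀᴴ * ((Uᵀ * Tᵀ) * ((T * U) * gᵀ))) * T := by simp only [Matrix.mul_assoc]
        _ = Tᵀ * T := by rw [hUTt, hTU, Matrix.one_mul, Matrix.one_mul, e, Matrix.mul_one]) (by
      intro l x hx
      have h2 := hinv l (act Uᵀ x) (by rw [hmem, hback]; exact hx)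
      have h3 : (U * gᵀ * T)ᵀ = Tᵀ * (g * Uᵀ) := by
        rw [Matrix.transpose_mul, Matrix.transpose_mul, Matrix.transpose_transpose]
      rw [h3, ← act_act, ← act_act, h2, hback])
    have h3 : (U * gᵀ * T)ᵀ = Tᵀ * (g * Uᵀ) := by
      rw [Matrix.transpose_mul, Matrix.transpose_mul, Matrix.transpose_transpose]
    rw [h3, ← act_act, ← act_act] at h1
    have h4 := congrArg (act Uᵀ) h1
    rw [hback'] at h4
    exact h4)
  rw [hmem, hback] at key
  exact key

end Pool.Agent.Y761.TS
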